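import Pool.Agent.H28.MCB.Targets

/-!
# Row DIB: a family of intervals, any number of clusters
-/

set_option autoImplicit false

open Finset Filter Topology

namespace Pool.Agent.H26.MCB

open Pool.Agent.H28.MCL Pool.Agent.H28.MCB

theorem bc_nonneg {m : ℕ} (W : ℕ) (κ : ℝ) (h : ℕ) (A : Fin m → Finset ℕ)
    (g : Fin m → ℕ → ℝ) (l : Fin m) (j z : ℕ) : 0 ≤ bc W κ h A g l j z := by
  unfold bc
  refine mul_nonneg (by positivity) (Finset.sum_nonneg fun a _ => ?_)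
  unfold ind
  split_ifs <;> norm_num

theorem av_nonneg (T : ℕ) (b : ℕ → ℝ) (hb : ∀ n, 0 ≤ b n) (n : ℕ) : 0 ≤ av T b n := by
  unfold av
  exact mul_nonneg (by positivity) (Finset.sum_nonneg fun a _ => hb _)

theorem bb_two {m : ℕ} (W : ℕ) (κ : ℝ) (h : ℕ) (A : Fin m → Finset ℕ)
    (g : Fin m → ℕ → ℝ) (z : ℕ) :
    bb 2 W κ h A g z = 1 / (m : ℝ) * ∑ l, bc W κ h A g l 1 z := by
  unfold bb
  have h1 : Finset.Ico 1 2 = {1} := by decide
  rw [h1]
  simp only [Finset.sum_singleton]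
  norm_num

theorem dib (h1 : T_DB1) (hf : T_FAM) (ha : T_AVB) : T_DIB := by
  intro m κ θ δ hm hκ hκ1 hθ hδ hδθ q W hq hqW hW ζ hζ
  have hx := fun l : Fin m => h1 m l κ hκ hκ1 q W hq hqW hW ζ hζ
  choose h₁ hh₁ using hx
  refine ⟨Finset.univ.sup h₁, fun h hh => ?_⟩
  have hy := fun l : Fin m => hh₁ l h ((Finset.le_sup (Finset.mem_univ l)).trans hh)
  choose K₀ hK₀ using hy
  refine ⟨Finset.univ.sup K₀ + q + 1, ?_⟩
  intro n₀ τ A g hA hcg hg N T I hKT hTN hI hlen hbb w hw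
  have hN1 : 1 ≤ N := by omega
  have hN : (0 : ℝ) < N := by exact_mod_cast hN1
  have hm0 : (0 : ℝ) < m := by exact_mod_cast hm
  have hq0 : (0 : ℝ) < q := by exact_mod_cast hq
  have hl0 : (0 : ℝ) < len I := lt_of_lt_of_le (by positivity) hlen
  -- one good cluster
  have hsum : ∑ l : Fin m, ∑ n ∈ Finset.Icc 1 (2 * N), bc W κ h A g l 1 n ≤
      ∑ _l : Fin m, 2 * δ * (N : ℝ) := by
    rw [Finset.sum_comm, Finset.sum_const, Finset.card_univ, Fintype.card_fin, nsmul_eq_mul]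
    simp only [bb_two] at hbb
    rw [← Finset.mul_sum] at hbb
    rw [one_div, inv_mul_le_iff₀ hm0] at hbb
    exact hbb
  have : Nonempty (Fin m) := ⟨⟨0, hm⟩⟩
  obtain ⟨l, -, hl⟩ := Finset.exists_le_of_sum_le Finset.univ_nonempty hsum
  have hb0 : ∀ n, 0 ≤ bc W κ h A g l 1 n := fun n => bc_nonneg W κ h A g l 1 n
  have hK₀l : K₀ l ≤ Finset.univ.sup K₀ := Finset.le_sup (Finset.mem_univ l)
  have hav := ha (bc W κ h A g l 1) δ q n₀ N T hb0 hq (by omega) hTN hl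
  have hfam := hf m q W n₀ τ A (gc W A g) w (1 - κ / 2 + ζ) (κ / 2) N T I
    (av T (bc W κ h A g l 1)) hq (by linarith) (by linarith) (av_nonneg T _ hb0)
    ⟨fun J hJ => ⟨by have := (hI.1 J hJ).1; omega, (hI.1 J hJ).2⟩, hI.2⟩
    (fun J hJ => by
      have e := (hI.1 J hJ).1
      have := hK₀ l n₀ τ A g hA hcg hg J.2 (J.2 - J.1) T (by omega) (by omega) (by omega) w hw
      refine this.trans (le_of_eq ?_)
      ring)
  refine hfam.trans (mul_le_mul_of_nonneg_left ?_ (sq_nonneg _))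
  have e1 : (q : ℝ) / (len I : ℝ) * ∑ n ∈ iv N N q n₀, av T (bc W κ h A g l 1) n ≤ 4 * δ / θ := by
    calc (q : ℝ) / (len I : ℝ) * ∑ n ∈ iv N N q n₀, av T (bc W κ h A g l 1) n ≤
          (q : ℝ) / (len I : ℝ) * (4 * δ * N / q) := mul_le_mul_of_nonneg_left hav (by positivity)
      _ = 4 * δ * N / len I := by field_simp
      _ ≤ 4 * δ / θ := by
          rw [div_le_div_iff₀ hl0 hθ]
          nlinarith
  have e2 : 4 * δ / θ ≤ 1 / 4 := by
    rw [div_le_iff₀ hθ]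
    linarith
  have e3 : κ / 2 * ((q : ℝ) / (len I : ℝ) * ∑ n ∈ iv N N q n₀, av T (bc W κ h A g l 1) n) ≤
      κ / 2 * (1 / 4) := mul_le_mul_of_nonneg_left (e1.trans e2) (by linarith)
  linarith

end Pool.Agent.H26.MCB
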